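import Pool.Agent.H.MP_b3f678_an.B

namespace Pool.Agent.Results.MP_b3f678_an.No

open MeasureTheory ProbabilityTheory Filter Topology Pool.Agent.H.MP_b3f678_an

variable {A : Type} [AddCommGroup A] [Fintype A] [TopologicalSpace A] [DiscreteTopology A]
  [MeasurableSpace A] [BorelSpace A]

/-- the shift `σ(x)_i = x_{i+1}`. -/
def shift (x : ℤ → A) : ℤ → A := fun i => x (i + 1)

/-- the character `x ↦ ∏ₖ χₖ(xₖ)`; its rank is `c.support.card`. -/
noncomputable def chi (c : ℤ →₀ AddChar A ℂ) (x : ℤ → A) : ℂ := ∏ k ∈ c.support, c k (x k)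

def HarmMixing (μ : Measure (ℤ → A)) : Prop :=
  ∀ ε > 0, ∃ R : ℕ, ∀ c : ℤ →₀ AddChar A ℂ, R < c.support.card → ‖∫ x, chi c x ∂μ‖ < ε

/-- the uniform Bernoulli measure. -/
noncomputable def haar : Measure (ℤ → A) := Measure.infinitePi fun _ => uniformOn Set.univ

/-- `F^t μ → λ` weak-* along the filter `l`. -/
def Conv (F : (ℤ → A) → ℤ → A) (μ : Measure (ℤ → A)) (l : Filter ℕ) : Prop :=
  ∀ f : C(ℤ → A, ℝ), Tendsto (fun t => ∫ x, f x ∂μ.map F^[t]) l (𝓝 (∫ x, f x ∂haar))

def Strong (F : (ℤ → A) → ℤ → A) : Prop :=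
  ∀ μ : Measure (ℤ → A), IsProbabilityMeasure μ → HarmMixing μ → Conv F μ atTop

def InDensity (F : (ℤ → A) → ℤ → A) : Prop :=
  ∀ μ : Measure (ℤ → A), IsProbabilityMeasure μ → HarmMixing μ → ∃ D : Set ℕ,
    liminf (fun n : ℕ => ((D ∩ Set.Icc 0 n).ncard : ℝ) / n) atTop = 1 ∧ Conv F μ (atTop ⊓ 𝓟 D)

set_option linter.unusedSectionVars false

lemma chi_sub (c : ℤ →₀ AddChar A ℂ) {s : Finset ℤ} (h : c.support ⊆ s) (x : ℤ → A) :
    chi c x = ∏ k ∈ s, c k (x k) :=
  Finset.prod_subset h fun k _ hk => by rw [Finsupp.notMem_support_iff.1 hk]; simp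

lemma chi_add (c c' : ℤ →₀ AddChar A ℂ) (x : ℤ → A) : chi (c + c') x = chi c x * chi c' x := by
  classical
  rw [chi_sub _ Finsupp.support_add, chi_sub c Finset.subset_union_left,
    chi_sub c' Finset.subset_union_right, ← Finset.prod_mul_distrib]
  simp

lemma chi_zero (x : ℤ → A) : chi 0 x = 1 := by simp [chi]

lemma chi_single (k : ℤ) (ψ : AddChar A ℂ) (x : ℤ → A) : chi (Finsupp.single k ψ) x = ψ (x k) := by
  rw [chi_sub _ Finsupp.support_single_subset]; simp

lemma chi_pi (c : ℤ →₀ AddChar A ℂ) (k : ℤ) (a : A) : chi c (Pi.single k a) = c k a := by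
  rw [chi_sub c (Finset.subset_insert k _), Finset.prod_eq_single k]
  · simp
  · intro j _ h; simp [h]
  · simp

lemma chi_inj {c c' : ℤ →₀ AddChar A ℂ} (h : ∀ x, chi c x = chi c' x) : c = c' := by
  ext k a; rw [← chi_pi, h, chi_pi]

lemma chi_cont (c : ℤ →₀ AddChar A ℂ) : Continuous (chi c) :=
  continuous_finsetProd _ fun k _ => continuous_of_discreteTopology.comp (continuous_apply k)

lemma chi_map_add (c : ℤ →₀ AddChar A ℂ) (x y : ℤ → A) : chi c (x + y) = chi c x * chi c y := by
  simp [chi, AddChar.map_add_eq_mul, Finset.prod_mul_distrib]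

lemma chi_sh (j : ℤ) (c : ℤ →₀ AddChar A ℂ) (x : ℤ → A) :
    chi (sh j c) x = chi c fun i => x (i + j) := by
  induction c using Finsupp.induction_linear with
  | zero => simp [sh_zero, chi_zero]
  | add c c' h h' => rw [sh_add, chi_add, chi_add, h, h']
  | single k v => rw [sh_single, chi_single, chi_single]

lemma rep (ψ : AddChar (ℤ → A) ℂ) (h : Continuous ψ) : ∃ c, ∀ x, chi c x = ψ x := by
  classical
  have hfin : (Set.range ψ).Finite := by
    refine (Polynomial.nthRootsFinset (Fintype.card A) (1 : ℂ)).finite_toSet.subset ?_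
    rintro _ ⟨x, rfl⟩
    rw [Finset.mem_coe, Polynomial.mem_nthRootsFinset Fintype.card_pos, ← AddChar.map_nsmul_eq_pow,
      show Fintype.card A • x = 0 by ext k; simp [card_nsmul_eq_zero], AddChar.map_zero_eq_one]
  have h1 : ψ ⁻¹' (Set.range ψ \ {1})ᶜ ∈ 𝓝 (0 : ℤ → A) :=
    (hfin.diff.isClosed.isOpen_compl.preimage h).mem_nhds (by simp)
  rw [nhds_pi, mem_pi] at h1
  obtain ⟨I, hI, t, ht, h1⟩ := h1
  have h2 : ∀ x : ℤ → A, (∀ k ∈ I, x k = 0) → ψ x = 1 := fun x hx => by
    have := h1 (show x ∈ I.pi t from fun k hk => by rw [hx k hk]; exact mem_of_mem_nhds (ht k))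
    simpa using this
  let φ : ℤ → AddChar A ℂ := fun k => ψ.compAddMonoidHom (AddMonoidHom.single (fun _ => A) k)
  refine ⟨Finsupp.onFinset hI.toFinset (fun k => if k ∈ I then φ k else 0) fun k hk => by
    by_contra h; simp at h; simp [h] at hk, fun x => ?_⟩
  rw [chi_sub _ Finsupp.support_onFinset_subset]
  have e : x = ∑ k ∈ hI.toFinset, Pi.single k (x k) +
      (x - ∑ k ∈ hI.toFinset, Pi.single k (x k)) := by abel
  conv_rhs => rw [e, AddChar.map_add_eq_mul, h2 (x - _) fun k hk => by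
    simp [Finset.sum_apply, Pi.single_apply, hk], mul_one]
  have e2 : ∀ s : Finset ℤ, ψ (∑ k ∈ s, Pi.single k (x k)) = ∏ k ∈ s, φ k (x k) := fun s => by
    induction s using Finset.induction_on with
    | empty => simp
    | insert a s ha ih =>
      rw [Finset.sum_insert ha, Finset.prod_insert ha, AddChar.map_add_eq_mul, ih]; rfl
  rw [e2]
  exact Finset.prod_congr rfl fun k hk => by simp at hk; simp [hk]

lemma dual (F : (ℤ → A) →+ ℤ → A) (h : Continuous F) :
    ∃ T : (ℤ →₀ AddChar A ℂ) →+ (ℤ →₀ AddChar A ℂ), ∀ c x, chi (T c) x = chi c (F x) := by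
  choose T hT using fun c : ℤ →₀ AddChar A ℂ => rep
    ⟨fun x => chi c (F x), by simp [chi], fun x y => by rw [map_add, chi_map_add]⟩
    ((chi_cont c).comp h)
  have hT' : ∀ c x, chi (T c) x = chi c (F x) := hT
  exact ⟨AddMonoidHom.mk' T fun a b => chi_inj fun x => by simp only [hT', chi_add], hT'⟩

lemma int_chi (ν : Measure A) [IsProbabilityMeasure ν] (c : ℤ →₀ AddChar A ℂ) :
    ∫ x, chi c x ∂Measure.infinitePi (fun _ => ν) = ∏ k ∈ c.support, ∫ a, c k a ∂ν := by
  have := integral_restrict_infinitePi (fun _ : ℤ => ν) (s := c.support)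
    (f := fun y => ∏ k : c.support, c k (y k)) (measurable_of_finite _).aestronglyMeasurable
  rw [integral_fintype_prod_eq_prod (fun (k : c.support) a => c k a),
    Finset.prod_coe_sort c.support fun k => ∫ a, c k a ∂ν] at this
  rw [← this]
  refine integral_congr_ae (ae_of_all _ fun x => ?_)
  exact (Finset.prod_coe_sort c.support fun k => c k (x k)).symm

lemma int_unif {ψ : AddChar A ℂ} (h : ψ ≠ 0) : ∫ a, ψ a ∂uniformOn Set.univ = 0 := by
  rw [uniformOn, ProbabilityTheory.cond, Measure.restrict_univ, integral_smul_measure, integral_count,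
    AddChar.sum_eq_zero_iff_ne_zero.2 h, smul_zero]

instance : IsProbabilityMeasure (haar : Measure (ℤ → A)) := by unfold haar; infer_instance

lemma int_haar {c : ℤ →₀ AddChar A ℂ} (h : c ≠ 0) : ∫ x, chi c x ∂haar = 0 := by
  obtain ⟨k, hk⟩ := Finsupp.support_nonempty_iff.2 h
  rw [haar, int_chi, Finset.prod_eq_zero hk (int_unif (Finsupp.mem_support_iff.1 hk))]

lemma bern : ∃ μ : Measure (ℤ → A), IsProbabilityMeasure μ ∧
    ∀ c : ℤ →₀ AddChar A ℂ, ∫ x, chi c x ∂μ = (1 / 2) ^ c.support.card := by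
  let ν : Measure A := (2⁻¹ : ENNReal) • Measure.dirac 0 + (2⁻¹ : ENNReal) • uniformOn Set.univ
  have : IsProbabilityMeasure ν := ⟨by simp [ν, ENNReal.inv_two_add_inv_two]⟩
  refine ⟨Measure.infinitePi fun _ => ν, inferInstance, fun c => ?_⟩
  rw [int_chi, ← Finset.prod_const]
  refine Finset.prod_congr rfl fun k hk => ?_
  rw [integral_add_measure (Integrable.of_finite.smul_measure (by simp))
    (Integrable.of_finite.smul_measure (by simp)), integral_smul_measure, integral_smul_measure,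
    int_unif (Finsupp.mem_support_iff.1 hk), integral_dirac]
  simp

lemma cint (f : C(ℤ → A, ℂ)) (μ : Measure (ℤ → A)) [IsFiniteMeasure μ] : Integrable f μ :=
  f.continuous.integrable_of_hasCompactSupport (HasCompactSupport.of_compactSpace _)

/-- convergence on characters gives weak-* convergence -/
lemma weak (μ : ℕ → Measure (ℤ → A)) [∀ t, IsProbabilityMeasure (μ t)] (l : Filter ℕ)
    (h : ∀ c, Tendsto (fun t => ∫ x, chi c x ∂μ t) l (𝓝 (∫ x, chi c x ∂haar)))
    (f : C(ℤ → A, ℝ)) : Tendsto (fun t => ∫ x, f x ∂μ t) l (𝓝 (∫ x, f x ∂haar)) := by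
  let s : Set C(ℤ → A, ℂ) := Set.range fun c => ⟨chi c, chi_cont c⟩
  have hs : (StarAlgebra.adjoin ℂ s).topologicalClosure = ⊤ := by
    refine ContinuousMap.starSubalgebra_topologicalClosure_eq_top_of_separatesPoints _
      fun x y hxy => ?_
    obtain ⟨k, hk⟩ := Function.ne_iff.1 hxy
    obtain ⟨ψ, hψ⟩ := AddChar.exists_apply_ne_zero.2 (sub_ne_zero.2 hk)
    refine ⟨_, ⟨_, StarAlgebra.subset_adjoin ℂ s ⟨Finsupp.single k ψ, rfl⟩, rfl⟩, fun e => hψ ?_⟩
    have e' : ψ (x k) = ψ (y k) := by rw [← chi_single, ← chi_single]; exact e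
    rw [AddChar.map_sub_eq_div, e', div_self]
    exact (AddChar.val_isUnit ψ _).ne_zero
  have h1 : ∀ g ∈ Submonoid.closure (s ∪ star s), g ∈ s := by
    intro g hg
    induction hg using Submonoid.closure_induction with
    | mem g hg =>
      rcases hg with hg | ⟨c, hc⟩
      · exact hg
      · refine ⟨-c, ?_⟩
        ext x
        rw [← star_star g, ← hc]
        simp [chi, AddChar.map_neg_eq_conj]
    | one => exact ⟨0, by ext x; simp [chi]⟩
    | mul a b _ _ ha hb =>
      obtain ⟨c, rfl⟩ := ha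
      obtain ⟨c', rfl⟩ := hb
      exact ⟨c + c', by ext x; simp [chi_add]⟩
  have h2 : ∀ g ∈ Submodule.span ℂ (Submonoid.closure (s ∪ star s) : Set C(ℤ → A, ℂ)),
      Tendsto (fun t => ∫ x, g x ∂μ t) l (𝓝 (∫ x, g x ∂haar)) := by
    intro g hg
    induction hg using Submodule.span_induction with
    | mem g hg => obtain ⟨c, rfl⟩ := h1 g hg; exact h c
    | zero => simpa using tendsto_const_nhds
    | add a b _ _ ha hb =>
      simp only [ContinuousMap.add_apply, integral_add (cint a _) (cint b _)]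
      exact ha.add hb
    | smul r a _ ha =>
      simp only [ContinuousMap.smul_apply, integral_smul]
      exact ha.const_smul r
  have h3 : ∀ g : C(ℤ → A, ℂ), Tendsto (fun t => ∫ x, g x ∂μ t) l (𝓝 (∫ x, g x ∂haar)) := by
    intro g
    rw [Metric.tendsto_nhds]
    intro ε hε
    have hg : g ∈ closure (StarAlgebra.adjoin ℂ s : Set C(ℤ → A, ℂ)) := by
      show g ∈ (StarAlgebra.adjoin ℂ s).topologicalClosure
      rw [hs]; trivial
    obtain ⟨g', hg', hd⟩ := Metric.mem_closure_iff.1 hg (ε / 3) (by positivity)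
    have hb : ∀ (ν : Measure (ℤ → A)) [IsProbabilityMeasure ν],
        dist (∫ x, g x ∂ν) (∫ x, g' x ∂ν) ≤ dist g g' := fun ν _ => by
      rw [dist_eq_norm, ← integral_sub (cint g _) (cint g' _)]
      simpa using norm_integral_le_of_norm_le_const (μ := ν) (C := dist g g')
        (ae_of_all _ fun x => by rw [← dist_eq_norm]; exact ContinuousMap.dist_apply_le_dist x)
    filter_upwards [Metric.tendsto_nhds.1 (h2 g' (by
      rw [← StarAlgebra.adjoin_eq_span]; exact hg')) (ε / 3) (by positivity)] with t ht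
    have h4 := dist_triangle4 (∫ x, g x ∂μ t) (∫ x, g' x ∂μ t) (∫ x, g' x ∂haar) (∫ x, g x ∂haar)
    rw [dist_comm (∫ x, g' x ∂haar)] at h4
    linarith [hb (μ t), hb haar]
  have := h3 ⟨fun x => f x, by fun_prop⟩
  simp only [ContinuousMap.coe_mk, integral_complex_ofReal] at this
  simpa [Function.comp_def] using (Complex.continuous_re.tendsto _).comp this

theorem result {A : Type} [AddCommGroup A] [Fintype A] [TopologicalSpace A] [DiscreteTopology A]
    [MeasurableSpace A] [BorelSpace A] (F : (ℤ → A) →+ ℤ → A) (hc : Continuous F)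
    (hs : ∀ x, F (shift x) = shift (F x)) (hb : Function.Bijective F) (hd : InDensity F) :
    Strong F := by
  let E : (ℤ → A) ≃+ (ℤ → A) := AddEquiv.ofBijective F hb
  have hE : Continuous E.symm := (hc.homeoOfEquivCompactToT2 (f := E.toEquiv)).symm.continuous
  obtain ⟨S, hS⟩ := dual F hc
  obtain ⟨S', hS'⟩ := dual E.symm.toAddMonoidHom hE
  let T : (ℤ →₀ AddChar A ℂ) ≃+ (ℤ →₀ AddChar A ℂ) :=
    { S with
      invFun := S'
      left_inv := fun c => chi_inj fun x => by
        rw [hS']; exact (hS _ _).trans (congrArg _ (E.apply_symm_apply x))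
      right_inv := fun c => chi_inj fun x =>
        (hS _ _).trans ((hS' _ _).trans (congrArg _ (E.symm_apply_apply x))) }
  have hT : ∀ c x, chi (T c) x = chi c (F x) := hS
  have hsj : ∀ (j : ℤ) (x : ℤ → A), (F fun i => x (i + j)) = fun i => F x (i + j) := by
    intro j
    induction j using Int.induction_on with
    | zero => simp
    | succ j ih =>
      intro x
      have := hs fun i => x (i + j)
      rw [ih] at this
      simp only [← add_assoc, add_right_comm _ (j : ℤ) 1]
      exact this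
    | pred j ih =>
      intro x
      funext i
      have := congrFun (hs fun i => x (i + (-j - 1))) (i - 1)
      rw [show shift (fun i => x (i + (-j - 1))) = fun i => x (i + -j) from
        funext fun i => congrArg x (by ring), ih] at this
      simp only [shift, sub_add_cancel] at this
      rw [← this]; exact congrArg (F x) (by ring)
  have hTt : ∀ t c x, chi (T^[t] c) x = chi c (F^[t] x) := fun t c x => by
    induction t generalizing x with
    | zero => rfl
    | succ t ih => rw [Function.iterate_succ_apply', hT, ih, Function.iterate_succ_apply]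
  have hm : ∀ t, Measurable F^[t] := fun t => (hc.iterate t).measurable
  have hI : ∀ (μ : Measure (ℤ → A)) t c, ∫ x, chi c x ∂μ.map F^[t] = ∫ x, chi (T^[t] c) x ∂μ :=
    fun μ t c => by
      rw [integral_map (hm t).aemeasurable (chi_cont c).aestronglyMeasurable]
      simp only [hTt]
  intro μ hμ hmix f
  have : ∀ t, IsProbabilityMeasure (μ.map F^[t]) := fun t =>
    Measure.isProbabilityMeasure_map (hm t).aemeasurable
  refine weak (fun t => μ.map F^[t]) atTop (fun c => ?_) f
  by_cases h0 : c = 0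
  · simp [h0, chi_zero]
  rw [int_haar h0, NormedAddGroup.tendsto_nhds_zero]
  intro ε hε
  obtain ⟨R, hR⟩ := hmix ε hε
  by_contra hcon
  obtain ⟨y, hy, R', hR'⟩ := alg T (fun j c => chi_inj fun x => by
    rw [hT, chi_sh, chi_sh, hT, hsj]) c h0 R fun hf => hcon (by
      rw [← Nat.cofinite_eq_atTop]
      filter_upwards [hf.compl_mem_cofinite] with t ht
      rw [hI]; exact hR _ (by simpa using ht))
  obtain ⟨ν, hν, hν'⟩ := bern (A := A)
  obtain ⟨D, hD, hconv⟩ := hd ν hν fun ε hε => by
    obtain ⟨R, hR⟩ := exists_pow_lt_of_lt_one hε (by norm_num : (1 / 2 : ℝ) < 1)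
    refine ⟨R, fun c hc => lt_of_le_of_lt ?_ hR⟩
    rw [hν', norm_pow]
    simpa using pow_le_pow_of_le_one (by norm_num) (by norm_num : (2⁻¹ : ℝ) ≤ 1) hc.le
  have hDi : D.Infinite := fun hf => by
    have : Tendsto (fun n : ℕ => ((D ∩ Set.Icc 0 n).ncard : ℝ) / n) atTop (𝓝 0) :=
      squeeze_zero (fun n => by positivity) (fun n => by
        gcongr; exact Set.inter_subset_left)
        (tendsto_const_div_atTop_nhds_zero_nat (D.ncard : ℝ))
    rw [this.liminf_eq] at hD
    exact zero_ne_one hD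
  have : (atTop ⊓ 𝓟 D).NeBot := Nat.cofinite_eq_atTop ▸ hDi.cofinite_inf_principal_neBot
  have h1 := hconv ⟨fun x => (chi y x).re, Complex.continuous_re.comp (chi_cont y)⟩
  have h2 : ∀ (μ : Measure (ℤ → A)) [IsProbabilityMeasure μ],
      ∫ x, (chi y x).re ∂μ = (∫ x, chi y x ∂μ).re := fun μ _ =>
    integral_re (cint ⟨chi y, chi_cont y⟩ μ)
  have : ∀ t, IsProbabilityMeasure (ν.map F^[t]) := fun t =>
    Measure.isProbabilityMeasure_map (hm t).aemeasurable
  simp only [ContinuousMap.coe_mk, h2, int_haar hy, hI, hν', Complex.zero_re] at h1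
  have h3 : (1 / 2 : ℝ) ^ R' ≤ 0 := ge_of_tendsto' h1 fun t => by
    rw [show (1 / 2 : ℂ) = ((1 / 2 : ℝ) : ℂ) by simp, ← Complex.ofReal_pow, Complex.ofReal_re]
    exact pow_le_pow_of_le_one (by norm_num) (by norm_num) (hR' t)
  exact absurd h3 (not_le.2 (by positivity))

end Pool.Agent.Results.MP_b3f678_an.No
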